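import Pool.Agent.Run7.h332.WP.Mixed

/-!
# MP_d1a94a_nt: a cube, a positive triangular number and a randomly perturbed square

Let `1/3 < δ ≤ 1/2` and let `ξ n` be independent random nonnegative integers such that each integer
`j ≤ n ^ (2 δ)` is the value of `ξ n` with probability at least `c / n ^ (2 δ)`, for instance uniform on the
integers `≤ n ^ (2 δ)`. Here `2 δ` may be any number above `2/3`, so that the *perturbed square* `n ^ 2 + ξ n`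
may be taken to differ from `n ^ 2` by much less than `n`. Almost surely the number of representations
`m = x ^ 3 + (y ^ 2 + ξ y) + z (z + 1) / 2`, `x, y ≥ 0`, `z ≥ 1`, tends to infinity with `m`; in
particular all but finitely many `m` have such a representation, and more than one.
-/

open MeasureTheory ProbabilityTheory Filter

namespace Pool.Agent.Results.MP_d1a94a_nt.PerturbedSquares

theorem tri_succ (z : ℕ) : (z + 1) * (z + 1 + 1) / 2 = z * (z + 1) / 2 + (z + 1) := by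
  have h : (z + 1) * (z + 1 + 1) = z * (z + 1) + 2 * (z + 1) := by ring
  rw [h, Nat.add_mul_div_left _ _ (by norm_num)]

theorem two_tri (z : ℕ) : 2 * (z * (z + 1) / 2) = z * (z + 1) := by
  induction z with
  | zero => rfl
  | succ z ih =>
    rw [tri_succ, Nat.mul_add, ih]
    ring

/-- Gaps of triangular numbers (shifted to start at zero). -/
theorem gap_tri : Run7.h332.WP.Gap (Set.range fun z : ℕ => (z + 1) * (z + 1 + 1) / 2 - 1)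
    (1 - 1 / ((2 : ℕ) : ℝ)) := by
  refine Run7.h332.WP.gap_seq 2 le_rfl 2 _ (by norm_num) (fun z => ?_) (fun z => ?_)
  · have h := two_tri (z + 1)
    have h2 : (z + 1) * (z + 1 + 1) = z ^ 2 + 3 * z + 2 := by ring
    show z ^ 2 ≤ 2 * ((z + 1) * (z + 1 + 1) / 2 - 1)
    omega
  · have h := tri_succ (z + 1)
    show (z + 1 + 1) * (z + 1 + 1 + 1) / 2 - 1 ≤
      (z + 1) * (z + 1 + 1) / 2 - 1 + 2 * (z ^ (2 - 1) + 1)
    have h2 : z ^ (2 - 1) = z := by norm_num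
    rw [h2, h]
    have h3 : 1 ≤ (z + 1) * (z + 1 + 1) / 2 := by
      have := two_tri (z + 1)
      nlinarith
    omega

/-- Gaps of the cubes of a residue class (shifted to start at zero). -/
theorem gap_cubes (r R : ℕ) (hR : 1 ≤ R) : Run7.h332.WP.Gap
    (Set.range fun j : ℕ => 3 * r ^ 2 * (R * j) + 3 * r * (R * j) ^ 2 + (R * j) ^ 3)
    (1 - 1 / ((3 : ℕ) : ℝ)) := by
  have hS : 1 ≤ r + R := by omega
  refine Run7.h332.WP.gap_seq 3 (by norm_num) (14 * (r + R) ^ 3) _ (by simp) (fun j => ?_)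
    (fun j => ?_)
  · show j ^ 3 ≤ 14 * (r + R) ^ 3 * (3 * r ^ 2 * (R * j) + 3 * r * (R * j) ^ 2 + (R * j) ^ 3)
    have h1 : j ^ 3 ≤ (R * j) ^ 3 := Nat.pow_le_pow_left (Nat.le_mul_of_pos_left j hR) 3
    have h2 : 1 ≤ 14 * (r + R) ^ 3 := by
      have : 1 ≤ (r + R) ^ 3 := Nat.one_le_pow _ _ hS
      omega
    calc j ^ 3 ≤ (R * j) ^ 3 := h1
      _ ≤ 3 * r ^ 2 * (R * j) + 3 * r * (R * j) ^ 2 + (R * j) ^ 3 := Nat.le_add_left _ _
      _ ≤ 14 * (r + R) ^ 3 * (3 * r ^ 2 * (R * j) + 3 * r * (R * j) ^ 2 + (R * j) ^ 3) :=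
        Nat.le_mul_of_pos_left _ h2
  · show 3 * r ^ 2 * (R * (j + 1)) + 3 * r * (R * (j + 1)) ^ 2 + (R * (j + 1)) ^ 3 ≤
      3 * r ^ 2 * (R * j) + 3 * r * (R * j) ^ 2 + (R * j) ^ 3 +
        14 * (r + R) ^ 3 * (j ^ (3 - 1) + 1)
    have h1 : r ^ 2 * R ≤ (r + R) ^ 3 := by
      calc r ^ 2 * R ≤ (r + R) ^ 2 * (r + R) := by gcongr <;> omega
        _ = (r + R) ^ 3 := by ring
    have h2 : r * R ^ 2 ≤ (r + R) ^ 3 := by
      calc r * R ^ 2 ≤ (r + R) * (r + R) ^ 2 := by gcongr <;> omega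
        _ = (r + R) ^ 3 := by ring
    have h3 : R ^ 3 ≤ (r + R) ^ 3 := by gcongr; omega
    have h4 : 3 * r ^ 2 * (R * (j + 1)) + 3 * r * (R * (j + 1)) ^ 2 + (R * (j + 1)) ^ 3 =
        3 * r ^ 2 * (R * j) + 3 * r * (R * j) ^ 2 + (R * j) ^ 3 +
          (3 * (r ^ 2 * R) + 3 * (r * R ^ 2) * (2 * j + 1) + R ^ 3 * (3 * j ^ 2 + 3 * j + 1)) := by
      ring
    have h5 : 3 * (r ^ 2 * R) + 3 * (r * R ^ 2) * (2 * j + 1) + R ^ 3 * (3 * j ^ 2 + 3 * j + 1) ≤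
        3 * (r + R) ^ 3 + 3 * (r + R) ^ 3 * (2 * j + 1) +
          (r + R) ^ 3 * (3 * j ^ 2 + 3 * j + 1) := by gcongr
    have h6 : 3 * (r + R) ^ 3 + 3 * (r + R) ^ 3 * (2 * j + 1) +
          (r + R) ^ 3 * (3 * j ^ 2 + 3 * j + 1) = (r + R) ^ 3 * (3 * j ^ 2 + 9 * j + 7) := by ring
    have h7 : 3 * j ^ 2 + 9 * j + 7 ≤ 14 * (j ^ 2 + 1) := by
      zify
      nlinarith [sq_nonneg ((j : ℤ) - 1)]
    have h8 : (r + R) ^ 3 * (3 * j ^ 2 + 9 * j + 7) ≤ (r + R) ^ 3 * (14 * (j ^ 2 + 1)) :=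
      Nat.mul_le_mul_left _ h7
    have h9 : (r + R) ^ 3 * (14 * (j ^ 2 + 1)) = 14 * (r + R) ^ 3 * (j ^ (3 - 1) + 1) := by
      norm_num
      ring
    omega

/-- **Main result.** -/
theorem result {Ω : Type*} [MeasurableSpace Ω] (P : Measure Ω) [IsProbabilityMeasure P]
    (δ : ℝ) (hδ0 : 1 / 3 < δ) (hδ1 : δ ≤ 1 / 2) (κ : ℝ) (hκ : 0 < κ)
    (ξ : ℕ → Ω → ℕ) (hm : ∀ n, Measurable (ξ n)) (hind : iIndepFun ξ P)
    (hdens : ∀ n j : ℕ, 1 ≤ n → (j : ℝ) ≤ (n : ℝ) ^ (2 * δ) →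
      κ / (n : ℝ) ^ (2 * δ) ≤ P.real {ω | ξ n ω = j}) :
    ∀ᵐ ω ∂P, ∀ R : ℕ, ∃ N₀ : ℕ, ∀ m : ℕ, N₀ ≤ m →
      (R : ℕ∞) ≤ Set.encard {p : ℕ × ℕ × ℕ | 1 ≤ p.2.2 ∧
        m = p.1 ^ 3 + (p.2.1 ^ 2 + ξ p.2.1 ω) + p.2.2 * (p.2.2 + 1) / 2} := by
  have hd : ∀ n j : ℕ, 1 ≤ n → (j : ℝ) ≤ (n : ℝ) ^ (δ * (2 : ℕ)) →
      κ / (n : ℝ) ^ (δ * (2 : ℕ)) ≤ P.real {ω | ξ n ω = j} := by
    intro n j hn hj
    have h : δ * ((2 : ℕ) : ℝ) = 2 * δ := by push_cast; ring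
    rw [h] at hj ⊢
    exact hdens n j hn hj
  rw [ae_all_iff]
  intro R
  rcases Nat.eq_zero_or_pos R with rfl | hR
  · exact Eventually.of_forall fun ω => ⟨0, fun m _ => by simp⟩
  have key : ∀ r : ℕ, ∀ᵐ ω ∂P, ∃ N₀ : ℕ, ∀ m : ℕ, N₀ ≤ m → ∃ x y z : ℕ, x % R = r % R ∧ 1 ≤ z ∧
      m = x ^ 3 + (y ^ 2 + ξ y ω) + z * (z + 1) / 2 := by
    intro r
    have hg := Run7.h332.WP.gap_add (by norm_num) gap_tri (gap_cubes r R hR)
    have h1 := Run7.h332.WP.one_perturbed P 2 le_rfl δ (by linarith) (by norm_num; linarith)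
      κ hκ ξ hm hind hd _ ((1 - 1 / ((2 : ℕ) : ℝ)) * (1 - 1 / ((3 : ℕ) : ℝ))) (by norm_num)
      (by norm_num; linarith) (by norm_num) hg
    filter_upwards [h1] with ω hω
    obtain ⟨N₀, hN⟩ := hω
    refine ⟨N₀ + r ^ 3 + 1, fun m hm => ?_⟩
    obtain ⟨s, ⟨a, ⟨z, rfl⟩, b, ⟨j, rfl⟩, rfl⟩, y, _, hs⟩ := hN (m - r ^ 3 - 1) (by omega)
    refine ⟨r + R * j, y, z + 1, by simp, by omega, ?_⟩
    have h2 : (r + R * j) ^ 3 = r ^ 3 + (3 * r ^ 2 * (R * j) + 3 * r * (R * j) ^ 2 + (R * j) ^ 3) := by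
      ring
    have h3 : 1 ≤ (z + 1) * (z + 1 + 1) / 2 := by
      have := two_tri (z + 1)
      nlinarith
    simp only at hs
    omega
  have hall : ∀ᵐ ω ∂P, ∀ r : ℕ, ∃ N₀ : ℕ, ∀ m : ℕ, N₀ ≤ m → ∃ x y z : ℕ, x % R = r % R ∧ 1 ≤ z ∧
      m = x ^ 3 + (y ^ 2 + ξ y ω) + z * (z + 1) / 2 := ae_all_iff.2 key
  filter_upwards [hall] with ω hω
  choose N₀ hN₀ using hω
  refine ⟨∑ r ∈ Finset.range R, N₀ r, fun m hm => ?_⟩
  have h1 : ∀ r : Fin R, ∃ p : ℕ × ℕ × ℕ, p.1 % R = (r : ℕ) ∧ 1 ≤ p.2.2 ∧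
      m = p.1 ^ 3 + (p.2.1 ^ 2 + ξ p.2.1 ω) + p.2.2 * (p.2.2 + 1) / 2 := by
    intro r
    have h2 : N₀ r ≤ ∑ r ∈ Finset.range R, N₀ r :=
      Finset.single_le_sum (f := N₀) (fun _ _ => Nat.zero_le _) (Finset.mem_range.2 r.2)
    obtain ⟨x, y, z, hx, hz, h⟩ := hN₀ r m (le_trans h2 hm)
    exact ⟨(x, y, z), by rw [hx, Nat.mod_eq_of_lt r.2], hz, h⟩
  choose p hp using h1
  have hinj : Function.Injective p := by
    intro r s hrs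
    have h2 := (hp r).1
    have h3 := (hp s).1
    rw [hrs] at h2
    exact Fin.ext (h2.symm.trans h3)
  have hsub : Set.range p ⊆ {p : ℕ × ℕ × ℕ | 1 ≤ p.2.2 ∧
        m = p.1 ^ 3 + (p.2.1 ^ 2 + ξ p.2.1 ω) + p.2.2 * (p.2.2 + 1) / 2} := by
    rintro _ ⟨r, rfl⟩
    exact (hp r).2
  refine le_trans (le_of_eq ?_) (Set.encard_le_encard hsub)
  rw [← Set.image_univ, hinj.encard_image, Set.encard_univ]
  simp

end Pool.Agent.Results.MP_d1a94a_nt.PerturbedSquares
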